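import Mathlib
import Pool.Agent.Lib.helper16.KtC

namespace Pool.Agent.Results.MP_7f7e2f_an.Counter

/-- separation of a sequence -/
noncomputable def sep {X : Type} [NormedAddCommGroup X] (x : ℕ → X) : ℝ :=
  sInf {r | ∃ n m, n ≠ m ∧ r = ‖x n - x m‖}

/-- symmetric separation of a sequence -/
noncomputable def sepS {X : Type} [NormedAddCommGroup X] (x : ℕ → X) : ℝ :=
  sInf {r | ∃ n m, n ≠ m ∧ r = min ‖x n - x m‖ ‖x n + x m‖}

/-- Kottman constant -/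
noncomputable def K (X : Type) [NormedAddCommGroup X] : ℝ :=
  sSup {s | ∃ x : ℕ → X, (∀ n, ‖x n‖ ≤ 1) ∧ s = sep x}

/-- symmetric Kottman constant -/
noncomputable def Ks (X : Type) [NormedAddCommGroup X] : ℝ :=
  sSup {s | ∃ x : ℕ → X, (∀ n, ‖x n‖ ≤ 1) ∧ s = sepS x}

/-- `Z` is a spreading model of `X` -/
def Spreading (X Z : Type) [NormedAddCommGroup X] [NormedSpace ℝ X] [NormedAddCommGroup Z]
    [NormedSpace ℝ Z] : Prop :=
  ∃ (y : ℕ → X) (e : ℕ → Z), (∀ n, ‖y n‖ = 1) ∧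
    (∀ φ : ℕ → ℕ, StrictMono φ → ¬ CauchySeq (y ∘ φ)) ∧
    Dense (Submodule.span ℝ (Set.range e) : Set Z) ∧
    ∀ (k : ℕ) (a : Fin k → ℝ) (ε : ℝ), 0 < ε → ∃ N : ℕ, ∀ n : Fin k → ℕ, StrictMono n →
      (∀ i, N ≤ n i) → |‖∑ i, a i • y (n i)‖ - ‖∑ i, a i • e i‖| < ε

open Pool.Agent.Lib.helper16 KtC

section
variable {X : Type} [NormedAddCommGroup X]

lemma nc {y : ℕ → X} (h : ∀ n m, n ≠ m → 1 ≤ ‖y n - y m‖) (φ : ℕ → ℕ) (hφ : StrictMono φ) :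
    ¬ CauchySeq (y ∘ φ) := by
  intro hc
  obtain ⟨N, hN⟩ := Metric.cauchySeq_iff'.1 hc 1 one_pos
  have := hN (N + 1) (Nat.le_succ N)
  rw [dist_eq_norm] at this
  exact this.not_ge (h _ _ (hφ (Nat.lt_succ_self N)).ne')

lemma nfd [NormedSpace ℝ X] {y : ℕ → X} (h0 : ∀ n, ‖y n‖ ≤ 1)
    (h : ∀ n m, n ≠ m → 1 ≤ ‖y n - y m‖) : ¬ FiniteDimensional ℝ X := by
  intro hf
  have := FiniteDimensional.proper_real X
  obtain ⟨b, -, φ, hφ, hb⟩ := (isCompact_closedBall (0 : X) 1).tendsto_subseq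
    (x := y) fun n => by simpa using h0 n
  exact nc h φ hφ hb.cauchySeq

lemma sep_le (x : ℕ → X) {n m : ℕ} (h : n ≠ m) : sep x ≤ ‖x n - x m‖ :=
  csInf_le ⟨0, by rintro _ ⟨n, m, -, rfl⟩; positivity⟩ ⟨n, m, h, rfl⟩

lemma sepS_le (x : ℕ → X) {n m : ℕ} (h : n ≠ m) : sepS x ≤ ‖x n - x m‖ :=
  le_trans (b := min ‖x n - x m‖ ‖x n + x m‖)
    (csInf_le ⟨0, by rintro _ ⟨n, m, -, rfl⟩; positivity⟩ ⟨n, m, h, rfl⟩) (min_le_left _ _)

lemma two {x : ℕ → X} (h : ∀ n, ‖x n‖ ≤ 1) : ‖x 0 - x 1‖ ≤ 2 := by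
  linarith [norm_sub_le (x 0) (x 1), h 0, h 1]
end

theorem result : ∃ (X Z : Type) (_ : NormedAddCommGroup X) (_ : NormedSpace ℝ X)
    (_ : CompleteSpace X) (_ : NormedAddCommGroup Z) (_ : NormedSpace ℝ Z) (_ : CompleteSpace Z),
    ¬ FiniteDimensional ℝ X ∧ ¬ FiniteDimensional ℝ Z ∧ Spreading X Z ∧
      Ks X < Ks Z ∧ K X < K Z := by
  obtain ⟨y0, hy⟩ := X2
  obtain ⟨z, z1, z2⟩ := Z2
  set y : ℕ → XS := fun n => y0 (n + 1) with hyd
  have y1 : ∀ n, ‖y n‖ = 1 := by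
    intro n
    have := hy 1 ![1] ![n + 1] (Function.injective_of_subsingleton _) (by simp)
    simp only [Fin.sum_univ_one, Matrix.cons_val_zero, one_smul, Fin.forall_fin_one, abs_one] at this
    exact le_antisymm ((this 1 zero_le_one).2 le_rfl) ((this _ (norm_nonneg _)).1 le_rfl)
  have y2 : ∀ n m, n ≠ m → 1 ≤ ‖y n - y m‖ := by
    intro n m h
    have := (hy 2 ![1, -1] ![n + 1, m + 1] (by
      intro i j; fin_cases i <;> fin_cases j <;> simp [h, h.symm]) (by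
      intro i; fin_cases i <;> simp) _ (norm_nonneg _)).1 le_rfl 0
    simpa [Fin.sum_univ_two, ← sub_eq_add_neg] using this
  refine ⟨XS, ZS, inferInstance, inferInstance, inferInstance, inferInstance, inferInstance,
    inferInstance, nfd (fun n => (y1 n).le) y2, nfd z1 fun n m h => by linarith [(z2 n m h).1],
    ⟨y, e, y1, nc y2, dense_e, fun k a ε hε => ⟨k, fun n hn hk => ?_⟩⟩, ?_, ?_⟩
  · have := hy k a (fun i => n i + 1) (fun i j h => hn.injective (by simpa using h))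
      fun i => by have := hk i; omega
    rw [le_antisymm ((this _ (norm_nonneg _)).2 ((Z1 k a _ (norm_nonneg _)).1 le_rfl))
      ((Z1 k a _ (norm_nonneg _)).2 ((this _ (norm_nonneg _)).1 le_rfl))]
    simpa using hε
  · refine lt_of_le_of_lt (b := 15 / 8) (csSup_le ⟨_, 0, by simp, rfl⟩ ?_)
      (lt_of_lt_of_le (b := sepS z) (lt_of_lt_of_le (b := 2) (by norm_num) ?_) ?_)
    · rintro _ ⟨x, hx, rfl⟩
      obtain ⟨j, l, h1, h2⟩ := X1 x hx
      exact (sepS_le x h1).trans h2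
    · refine le_csInf ⟨_, 0, 1, zero_ne_one, rfl⟩ ?_
      rintro _ ⟨n, m, h, rfl⟩
      exact le_min (z2 n m h).1 (z2 n m h).2
    · refine le_csSup ⟨2, ?_⟩ ⟨z, z1, rfl⟩
      rintro _ ⟨x, hx, rfl⟩
      exact (sepS_le x zero_ne_one).trans (two hx)
  · refine lt_of_le_of_lt (b := 15 / 8) (csSup_le ⟨_, 0, by simp, rfl⟩ ?_)
      (lt_of_lt_of_le (b := sep z) (lt_of_lt_of_le (b := 2) (by norm_num) ?_) ?_)
    · rintro _ ⟨x, hx, rfl⟩
      obtain ⟨j, l, h1, h2⟩ := X1 x hx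
      exact (sep_le x h1).trans h2
    · refine le_csInf ⟨_, 0, 1, zero_ne_one, rfl⟩ ?_
      rintro _ ⟨n, m, h, rfl⟩
      exact (z2 n m h).1
    · refine le_csSup ⟨2, ?_⟩ ⟨z, z1, rfl⟩
      rintro _ ⟨x, hx, rfl⟩
      exact (sep_le x zero_ne_one).trans (two hx)

end Pool.Agent.Results.MP_7f7e2f_an.Counter
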